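import Pool.Agent.V1142.EQ.Main

/-! Convergence of averages over `F` is equivalent to convergence on average over a family of
extensions. -/

set_option autoImplicit false
set_option linter.all false

namespace Pool.Agent.V1142.EQ

open Filter Topology Finset NumberField IsDedekindDomain MulAction

section abs

variable {V : Type*}

/-- the weighted mean of the differences is small -/
theorem close (B : ℕ → Finset V) (r : ℕ → V → ℝ) (e : ℕ → ℝ) (he : ∀ i, 0 < e i)
    (hB : ∀ (J : Finset ℕ) (ε : ℝ), 0 < ε → ∀ᶠ N in atTop, ∀ f : V → ℝ, (∀ v, |f v| ≤ 1) →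
      ∑ i ∈ J, (wav (B N) (r i) f - wav (B N) (fun _ => 1) f) ^ 2 / e i ≤ 1 + ε)
    (hs : ¬ Summable fun i => 1 / e i) (δ : ℝ) (hδ : 0 < δ) :
    ∀ᶠ m in atTop, 0 < ∑ i ∈ range m, 1 / e i ∧ ∀ᶠ N in atTop, ∀ f : V → ℝ, (∀ v, |f v| ≤ 1) →
      (∑ i ∈ range m, 1 / e i * |wav (B N) (r i) f - wav (B N) (fun _ => 1) f|) /
        (∑ i ∈ range m, 1 / e i) ≤ δ := by
  have hw : ∀ i, 0 ≤ 1 / e i := fun i => div_nonneg zero_le_one (he i).le
  have h1 : Tendsto (fun m => ∑ i ∈ range m, 1 / e i) atTop atTop :=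
    (not_summable_iff_tendsto_nat_atTop_of_nonneg hw).1 hs
  filter_upwards [h1.eventually_ge_atTop (2 / δ ^ 2), h1.eventually_gt_atTop 0] with m hm hm0
  refine ⟨hm0, ?_⟩
  filter_upwards [hB (range m) 1 one_pos] with N hN f hf
  set W := ∑ i ∈ range m, 1 / e i with hW
  rw [div_le_iff₀ hm0]
  have h2 := hN f hf
  have h3 : (∑ i ∈ range m, 1 / e i * |wav (B N) (r i) f - wav (B N) (fun _ => 1) f|) ^ 2 ≤
      W * ∑ i ∈ range m, (wav (B N) (r i) f - wav (B N) (fun _ => 1) f) ^ 2 / e i := by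
    refine Finset.sum_sq_le_sum_mul_sum_of_sq_eq_mul _ (fun i _ => hw i) (fun i _ =>
      div_nonneg (sq_nonneg _) (he i).le) (fun i _ => ?_)
    rw [mul_pow, sq_abs]
    ring
  have h4 : (∑ i ∈ range m, 1 / e i * |wav (B N) (r i) f - wav (B N) (fun _ => 1) f|) ^ 2 ≤ (δ * W) ^ 2 := by
    refine h3.trans ?_
    have h5 : W * ∑ i ∈ range m, (wav (B N) (r i) f - wav (B N) (fun _ => 1) f) ^ 2 / e i ≤ W * 2 :=
      mul_le_mul_of_nonneg_left (by linarith) hm0.le
    refine h5.trans ?_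
    have h6 : 2 ≤ δ ^ 2 * W := by
      rw [div_le_iff₀ (by positivity)] at hm
      linarith
    calc W * 2 ≤ W * (δ ^ 2 * W) := mul_le_mul_of_nonneg_left h6 hm0.le
      _ = (δ * W) ^ 2 := by ring
  exact abs_le_of_sq_le_sq' h4 (by positivity) |>.2

theorem wmean_le {m : ℕ} {w a b : ℕ → ℝ} (hw : ∀ i, 0 ≤ w i) (hW : 0 < ∑ i ∈ range m, w i) {c : ℝ}
    (h : ∀ i, a i ≤ b i + c) :
    (∑ i ∈ range m, w i * a i) / (∑ i ∈ range m, w i) ≤
      (∑ i ∈ range m, w i * b i) / (∑ i ∈ range m, w i) + c := by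
  rw [div_add' _ _ _ hW.ne']
  apply div_le_div_of_nonneg_right _ hW.le
  rw [Finset.mul_sum, ← Finset.sum_add_distrib]
  refine Finset.sum_le_sum fun i _ => ?_
  have := mul_le_mul_of_nonneg_left (h i) (hw i)
  linarith

/-- the equivalence -/
theorem iff_avg (B : ℕ → Finset V) (r : ℕ → V → ℝ) (e : ℕ → ℝ) (he : ∀ i, 0 < e i)
    (hB : ∀ (J : Finset ℕ) (ε : ℝ), 0 < ε → ∀ᶠ N in atTop, ∀ f : V → ℝ, (∀ v, |f v| ≤ 1) →
      ∑ i ∈ J, (wav (B N) (r i) f - wav (B N) (fun _ => 1) f) ^ 2 / e i ≤ 1 + ε)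
    (hs : ¬ Summable fun i => 1 / e i) (f : V → ℝ) (hf : ∀ v, |f v| ≤ 1) (c : ℝ) :
    Tendsto (fun N => wav (B N) (fun _ => 1) f) atTop (𝓝 c) ↔
      ∀ δ : ℝ, 0 < δ → ∀ᶠ m in atTop, ∀ᶠ N in atTop,
        (∑ i ∈ range m, 1 / e i * |wav (B N) (r i) f - c|) / (∑ i ∈ range m, 1 / e i) ≤ δ := by
  have hw : ∀ i, 0 ≤ 1 / e i := fun i => div_nonneg zero_le_one (he i).le
  constructor
  · intro h δ hδ
    filter_upwards [close B r e he hB hs (δ / 2) (by linarith)] with m hm
    have h1 : ∀ᶠ N in atTop, |wav (B N) (fun _ => 1) f - c| < δ / 2 := by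
      simpa [Real.dist_eq] using Metric.tendsto_nhds.1 h (δ / 2) (by linarith)
    filter_upwards [hm.2, h1] with N h2 h3
    have h4 := wmean_le (a := fun i => |wav (B N) (r i) f - c|)
      (b := fun i => |wav (B N) (r i) f - wav (B N) (fun _ => 1) f|) (c := δ / 2) hw hm.1 (fun i => by
        have := abs_sub_le (wav (B N) (r i) f) (wav (B N) (fun _ => 1) f) c
        linarith)
    have := h2 f hf
    exact h4.trans (by linarith)
  · intro h
    rw [Metric.tendsto_nhds]
    intro δ hδ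
    obtain ⟨m, hm1, hm2⟩ := ((close B r e he hB hs (δ / 3) (by linarith)).and (h (δ / 3) (by linarith))).exists
    filter_upwards [hm1.2, hm2] with N h2 h3
    rw [Real.dist_eq]
    have h4 := h2 f hf
    set W := ∑ i ∈ range m, 1 / e i with hW
    have h5 : |wav (B N) (fun _ => 1) f - c| ≤
        (∑ i ∈ range m, 1 / e i * |wav (B N) (r i) f - wav (B N) (fun _ => 1) f|) / W +
        (∑ i ∈ range m, 1 / e i * |wav (B N) (r i) f - c|) / W := by
      rw [← add_div, le_div_iff₀ hm1.1, ← Finset.sum_add_distrib, hW, Finset.mul_sum]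
      refine Finset.sum_le_sum fun i _ => ?_
      rw [← mul_add, mul_comm]
      refine mul_le_mul_of_nonneg_left ?_ (hw i)
      have := abs_sub_le (wav (B N) (fun _ => 1) f) (wav (B N) (r i) f) c
      rw [abs_sub_comm (wav (B N) (fun _ => 1) f) (wav (B N) (r i) f)] at this
      exact this
    linarith

end abs

variable {F : Type} [Field F] [NumberField F]

theorem wav_scale (N : ℕ) (r f : HeightOneSpectrum (𝓞 F) → ℝ) {C' : ℝ} (hC0 : 0 < C') :
    wav (bx F N) r f = C' * wav (bx F N) r (fun v => f v / C') := by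
  unfold wav
  have : ∑ v ∈ bx F N, r v * (f v / C') = (∑ v ∈ bx F N, r v * f v) / C' := by
    rw [Finset.sum_div]
    refine Finset.sum_congr rfl fun v _ => ?_
    ring
  rw [this]
  field_simp

theorem equivalence (φ : HeightOneSpectrum (𝓞 F) → Gal(AlgebraicClosure F/F))
    (hφ : ∀ v, Pool.Agent.W401.Cheb.IsFrob v (φ v)) (K : ℕ → IntermediateField F (AlgebraicClosure F))
    (hfin : ∀ i, FiniteDimensional F (K i)) (hne : ∀ i, K i ≠ ⊥)
    (hld : ∀ i j, i ≠ j → Module.finrank F ((K i ⊔ K j : IntermediateField F (AlgebraicClosure F))) =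
      Module.finrank F (K i) * Module.finrank F (K j))
    (hs : ¬ Summable fun i => 1 / ((rank (K i).fixingSubgroup : ℝ) - 1))
    (f : HeightOneSpectrum (𝓞 F) → ℝ) (C : ℝ) (hf : ∀ v, |f v| ≤ C) (c : ℝ) :
    Tendsto (fun N => wav (bx F N) (fun _ => 1) f) atTop (𝓝 c) ↔
      ∀ δ : ℝ, 0 < δ → ∀ᶠ m in atTop, ∀ᶠ N in atTop,
        (∑ i ∈ range m, 1 / ((rank (K i).fixingSubgroup : ℝ) - 1) *
          |wav (bx F N) (fun v => wt (K i) (φ v)) f - c|) /
          (∑ i ∈ range m, 1 / ((rank (K i).fixingSubgroup : ℝ) - 1)) ≤ δ := by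
  set C' : ℝ := |C| + 1 with hC'
  have hC0 : 0 < C' := by positivity
  have hf1 : ∀ v, |f v / C'| ≤ 1 := by
    intro v
    rw [abs_div, abs_of_pos hC0]
    apply div_le_one_of_le₀ _ hC0.le
    have := hf v
    have := le_abs_self C
    linarith
  have key := iff_avg (bx F) (fun i v => wt (K i) (φ v)) (fun i => (rank (K i).fixingSubgroup : ℝ) - 1)
      (fun i => rank_gt' (hfin i) (hne i))
      (fun J ε hε => bessel_fields φ hφ K hfin hne hld J ε hε) hs (fun v => f v / C') hf1 (c / C')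
  have e1 : Tendsto (fun N => wav (bx F N) (fun _ => 1) f) atTop (𝓝 c) ↔
      Tendsto (fun N => wav (bx F N) (fun _ => 1) (fun v => f v / C')) atTop (𝓝 (c / C')) := by
    constructor
    · intro h
      have := h.div_const C'
      refine this.congr fun N => ?_
      rw [wav_scale N _ f hC0]
      field_simp
    · intro h
      have := h.const_mul C'
      rw [show C' * (c / C') = c by field_simp] at this
      refine this.congr fun N => ?_
      rw [wav_scale N _ f hC0]
  have e2 : ∀ (m N : ℕ), (∑ i ∈ range m, 1 / ((rank (K i).fixingSubgroup : ℝ) - 1) *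
          |wav (bx F N) (fun v => wt (K i) (φ v)) f - c|) /
          (∑ i ∈ range m, 1 / ((rank (K i).fixingSubgroup : ℝ) - 1)) =
      C' * ((∑ i ∈ range m, 1 / ((rank (K i).fixingSubgroup : ℝ) - 1) *
          |wav (bx F N) (fun v => wt (K i) (φ v)) (fun v => f v / C') - c / C'|) /
          (∑ i ∈ range m, 1 / ((rank (K i).fixingSubgroup : ℝ) - 1))) := by
    intro m N
    rw [← mul_div_assoc, Finset.mul_sum]
    congr 1
    refine Finset.sum_congr rfl fun i _ => ?_
    have e : wav (bx F N) (fun v => wt (K i) (φ v)) f - c =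
        C' * (wav (bx F N) (fun v => wt (K i) (φ v)) (fun v => f v / C') - c / C') := by
      rw [wav_scale N _ f hC0]
      field_simp
    rw [e, abs_mul, abs_of_pos hC0]
    ring
  rw [e1, key]
  constructor
  · intro h δ hδ
    filter_upwards [h (δ / C') (by positivity)] with m hm
    filter_upwards [hm] with N hN
    rw [e2]
    rw [le_div_iff₀ hC0] at hN
    linarith
  · intro h δ hδ
    filter_upwards [h (C' * δ) (by positivity)] with m hm
    filter_upwards [hm] with N hN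
    rw [e2] at hN
    exact le_of_mul_le_mul_left hN hC0

end Pool.Agent.V1142.EQ
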