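import Pool.Agent.V1142.EQ.Dens

/-! The average number of fixed points of the Frobenius elements on a finite Galois set is the number
of orbits. -/

set_option autoImplicit false
set_option linter.all false

namespace Pool.Agent.V1142.EQ

open Filter Topology Finset NumberField IsDedekindDomain MulAction

section grp

variable {G : Type*} [Group G]

theorem card_fixed_conj {Q X : Type*} [Group Q] [MulAction Q X] (x y : Q) :
    Nat.card (fixedBy X (y * x * y⁻¹)) = Nat.card (fixedBy X x) := by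
  refine Nat.card_congr (((MulAction.toPerm y : Equiv.Perm X).subtypeEquiv fun z => ?_).symm)
  show x • z = z ↔ (y * x * y⁻¹) • (y • z) = y • z
  rw [smul_smul, inv_mul_cancel_right, mul_smul]
  exact (smul_left_cancel_iff y).symm

theorem card_fixed_prod {X Y : Type*} [MulAction G X] [MulAction G Y] (g : G) :
    Nat.card (fixedBy (X × Y) g) = Nat.card (fixedBy X g) * Nat.card (fixedBy Y g) := by
  rw [← Nat.card_prod]
  refine Nat.card_congr ⟨fun p => (⟨p.1.1, congrArg Prod.fst p.2⟩, ⟨p.1.2, congrArg Prod.snd p.2⟩),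
    fun p => ⟨(p.1.1, p.2.1), Prod.ext p.1.2 p.2.2⟩, fun p => rfl, fun p => rfl⟩

theorem triv_quot {U N : Subgroup G} [hn : N.Normal] (h : N ≤ U) (n : G) (hnN : n ∈ N) (x : G ⧸ U) :
    n • x = x := by
  obtain ⟨g, rfl⟩ := QuotientGroup.mk_surjective x
  show (QuotientGroup.mk (n * g) : G ⧸ U) = QuotientGroup.mk g
  rw [eq_comm, QuotientGroup.eq]
  have := hn.conj_mem n hnN g⁻¹
  rw [inv_inv] at this
  have h2 := h this
  rwa [mul_assoc] at h2

theorem card_orbits_one {X : Type*} [MulAction G X] [Nonempty X] (h : IsPretransitive G X) :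
    Nat.card (orbitRel.Quotient G X) = 1 := by
  have := (MulAction.pretransitive_iff_subsingleton_quotient G X).1 h
  obtain ⟨x⟩ := ‹Nonempty X›
  have : Nonempty (orbitRel.Quotient G X) := ⟨Quotient.mk'' x⟩
  exact Nat.card_of_subsingleton (Classical.arbitrary _)

/-- transitivity on a product of two coset spaces -/
theorem pretrans_prod (U U' : Subgroup G) [U.FiniteIndex] [U'.FiniteIndex]
    (h : (U ⊓ U').index = U.index * U'.index) : IsPretransitive G ((G ⧸ U) × (G ⧸ U')) := by
  let p : (G ⧸ U) × (G ⧸ U') := ((1 : G), (1 : G))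
  have hst : stabilizer G p = U ⊓ U' := by
    ext g
    rw [mem_stabilizer_iff, Subgroup.mem_inf]
    constructor
    · intro hg
      have h1 : g ∈ stabilizer G ((1 : G) : G ⧸ U) := congrArg Prod.fst hg
      have h2 : g ∈ stabilizer G ((1 : G) : G ⧸ U') := congrArg Prod.snd hg
      rw [stabilizer_quotient] at h1 h2
      exact ⟨h1, h2⟩
    · rintro ⟨h1, h2⟩
      rw [← stabilizer_quotient U] at h1
      rw [← stabilizer_quotient U'] at h2
      exact Prod.ext h1 h2
  have h1 := index_stabilizer G p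
  rw [hst, h] at h1
  have h2 : (Set.univ : Set ((G ⧸ U) × (G ⧸ U'))).ncard = U.index * U'.index := by
    rw [Set.ncard_univ, Nat.card_prod, Subgroup.index_eq_card, Subgroup.index_eq_card]
  have h3 : orbit G p = Set.univ :=
    Set.eq_of_subset_of_ncard_le (Set.subset_univ _) (by rw [h2, h1])
  have h4 : ∀ x, ∃ g : G, g • p = x := fun x => by
    have : x ∈ orbit G p := by rw [h3]; trivial
    exact this
  exact ⟨fun x y => by
    obtain ⟨a, rfl⟩ := h4 x
    obtain ⟨b, rfl⟩ := h4 y
    exact ⟨b * a⁻¹, by rw [smul_smul, inv_mul_cancel_right]⟩⟩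

/-- the number of orbits on pairs -/
noncomputable def rank (U : Subgroup G) : ℕ := Nat.card (orbitRel.Quotient G ((G ⧸ U) × (G ⧸ U)))

theorem rank_gt (U : Subgroup G) [U.FiniteIndex] (h : U ≠ ⊤) : 1 < rank U := by
  by_contra hcon
  push Not at hcon
  have : Nonempty (orbitRel.Quotient G ((G ⧸ U) × (G ⧸ U))) := ⟨Quotient.mk'' (((1 : G) : G ⧸ U), ((1 : G) : G ⧸ U))⟩
  have hs : Subsingleton (orbitRel.Quotient G ((G ⧸ U) × (G ⧸ U))) :=
    (Finite.card_le_one_iff_subsingleton).1 hcon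
  have ht := (MulAction.pretransitive_iff_subsingleton_quotient G _).2 hs
  apply h
  rw [eq_top_iff]
  intro g _
  obtain ⟨a, ha⟩ := ht.exists_smul_eq ((((1 : G) : G ⧸ U), ((1 : G) : G ⧸ U)) : (G ⧸ U) × (G ⧸ U))
    (((1 : G) : G ⧸ U), ((g : G) : G ⧸ U))
  have h1 : a • ((1 : G) : G ⧸ U) = ((1 : G) : G ⧸ U) := congrArg Prod.fst ha
  have h2 : a • ((1 : G) : G ⧸ U) = ((g : G) : G ⧸ U) := congrArg Prod.snd ha
  rw [h1] at h2
  have := QuotientGroup.eq.1 h2
  simpa using this

theorem rank_le (U : Subgroup G) [U.FiniteIndex] : rank U ≤ U.index := by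
  rw [Subgroup.index_eq_card]
  refine Nat.card_le_card_of_surjective (fun y : G ⧸ U =>
    (Quotient.mk'' (((1 : G) : G ⧸ U), y) : orbitRel.Quotient G ((G ⧸ U) × (G ⧸ U)))) ?_
  intro q
  induction q using Quotient.inductionOn' with
  | h p =>
    obtain ⟨x, y⟩ := p
    obtain ⟨g, rfl⟩ := QuotientGroup.mk_surjective x
    refine ⟨g⁻¹ • y, ?_⟩
    refine Quotient.sound' ?_
    refine ⟨g⁻¹, ?_⟩
    refine Prod.ext ?_ rfl
    show (QuotientGroup.mk (g⁻¹ * g) : G ⧸ U) = _
    rw [inv_mul_cancel]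

end grp

variable {F : Type} [Field F] [NumberField F]

section chosen

variable (φ : HeightOneSpectrum (𝓞 F) → Gal(AlgebraicClosure F/F))
  (hφ : ∀ v, Pool.Agent.W401.Cheb.IsFrob v (φ v))

include hφ in
theorem burnside {X : Type} [Finite X] [MulAction Gal(AlgebraicClosure F/F) X]
    (N : Subgroup Gal(AlgebraicClosure F/F)) [hn : N.Normal]
    (hN : IsOpen (N : Set Gal(AlgebraicClosure F/F))) (ht : ∀ n ∈ N, ∀ x : X, n • x = x) :
    Tendsto (fun n : ℕ => mn (bx F n) (Nat.primeCounting n) (fun v => (Nat.card (fixedBy X (φ v)) : ℝ)))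
      atTop (𝓝 ((Nat.card (orbitRel.Quotient Gal(AlgebraicClosure F/F) X) : ℕ) : ℝ)) := by
  classical
  haveI hfin : Finite (Gal(AlgebraicClosure F/F) ⧸ N) := Subgroup.quotient_finite_of_isOpen _ hN
  haveI := Fintype.ofFinite (Gal(AlgebraicClosure F/F) ⧸ N)
  haveI := Fintype.ofFinite X
  let ρ : Gal(AlgebraicClosure F/F) ⧸ N →* Equiv.Perm X :=
    QuotientGroup.lift N (MulAction.toPermHom Gal(AlgebraicClosure F/F) X)
      (fun n hn => Equiv.ext (ht n hn))
  letI act : MulAction (Gal(AlgebraicClosure F/F) ⧸ N) X := MulAction.compHom X ρ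
  have hsm : ∀ (g : Gal(AlgebraicClosure F/F)) (x : X),
      (QuotientGroup.mk g : Gal(AlgebraicClosure F/F) ⧸ N) • x = g • x := fun _ _ => rfl
  have h1 := cheb_fun φ hφ N hN (fun q => (Nat.card (fixedBy X q) : ℝ)) (fun x y => by
    rw [card_fixed_conj])
  have h2 : (∑ q : Gal(AlgebraicClosure F/F) ⧸ N, (Nat.card (fixedBy X q) : ℝ)) /
      (Fintype.card (Gal(AlgebraicClosure F/F) ⧸ N) : ℝ) =
      (Nat.card (orbitRel.Quotient Gal(AlgebraicClosure F/F) X) : ℝ) := by
    have h3 := sum_card_fixedBy_eq_card_orbits_mul_card_group (Gal(AlgebraicClosure F/F) ⧸ N) X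
    have h4 : Nat.card (orbitRel.Quotient Gal(AlgebraicClosure F/F) X) =
        Fintype.card (orbitRel.Quotient (Gal(AlgebraicClosure F/F) ⧸ N) X) := by
      rw [← Nat.card_eq_fintype_card]
      refine Nat.card_congr (Quotient.congr (Equiv.refl X) fun a b => ?_)
      show a ∈ orbit _ b ↔ a ∈ orbit _ b
      constructor
      · rintro ⟨g, hg⟩
        exact ⟨QuotientGroup.mk g, hg⟩
      · rintro ⟨q, hq⟩
        obtain ⟨g, rfl⟩ := QuotientGroup.mk_surjective q
        exact ⟨g, hq⟩
    have hc : (Fintype.card (Gal(AlgebraicClosure F/F) ⧸ N) : ℝ) ≠ 0 := by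
      exact_mod_cast Fintype.card_ne_zero
    rw [div_eq_iff hc, h4]
    simp_rw [Nat.card_eq_fintype_card]
    exact_mod_cast h3
  rw [h2] at h1
  exact h1

end chosen

end Pool.Agent.V1142.EQ
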