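import Mathlib

/-! Bessel's inequality for averages over sets of complementary densities. -/

set_option autoImplicit false
set_option linter.all false

namespace Pool.Agent.V1142.EQ

open Filter Topology Finset

section alg

variable {V ι : Type*} [DecidableEq ι]

theorem bessel0 (B : Finset V) (f : V → ℝ) (hf : ∀ v, |f v| ≤ 1) (J : Finset ι) (c : ι → ℝ)
    (g : ι → V → ℝ) :
    2 * ∑ i ∈ J, c i * ∑ v ∈ B, f v * g i v -
      ∑ i ∈ J, ∑ j ∈ J, c i * c j * ∑ v ∈ B, g i v * g j v ≤ (B.card : ℝ) := by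
  have h0 : 0 ≤ ∑ v ∈ B, (f v - ∑ i ∈ J, c i * g i v) ^ 2 := Finset.sum_nonneg fun v _ => sq_nonneg _
  have h1 : ∑ v ∈ B, (f v - ∑ i ∈ J, c i * g i v) ^ 2 =
      ∑ v ∈ B, f v ^ 2 - 2 * ∑ i ∈ J, c i * ∑ v ∈ B, f v * g i v +
      ∑ i ∈ J, ∑ j ∈ J, c i * c j * ∑ v ∈ B, g i v * g j v := by
    have e1 : ∑ i ∈ J, c i * ∑ v ∈ B, f v * g i v = ∑ v ∈ B, f v * ∑ i ∈ J, c i * g i v := by
      simp_rw [Finset.mul_sum]
      rw [Finset.sum_comm]
      refine Finset.sum_congr rfl fun v _ => Finset.sum_congr rfl fun i _ => ?_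
      ring
    have e2 : ∑ i ∈ J, ∑ j ∈ J, c i * c j * ∑ v ∈ B, g i v * g j v =
        ∑ v ∈ B, (∑ i ∈ J, c i * g i v) ^ 2 := by
      have e3 : ∀ v, (∑ i ∈ J, c i * g i v) ^ 2 = ∑ i ∈ J, ∑ j ∈ J, (c i * g i v) * (c j * g j v) :=
        fun v => by rw [sq, Finset.sum_mul_sum]
      have e4 : ∑ v ∈ B, (∑ i ∈ J, c i * g i v) ^ 2 =
          ∑ v ∈ B, ∑ i ∈ J, ∑ j ∈ J, (c i * g i v) * (c j * g j v) :=
        Finset.sum_congr rfl fun v _ => e3 v
      rw [e4, Finset.sum_comm (s := B)]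
      refine Finset.sum_congr rfl fun i _ => ?_
      rw [Finset.sum_comm (s := B)]
      refine Finset.sum_congr rfl fun j _ => ?_
      rw [Finset.mul_sum]
      refine Finset.sum_congr rfl fun v _ => ?_
      ring
    rw [e1, e2, Finset.mul_sum, ← Finset.sum_sub_distrib, ← Finset.sum_add_distrib]
    refine Finset.sum_congr rfl fun v _ => ?_
    ring
  have h2 : ∑ v ∈ B, f v ^ 2 ≤ (B.card : ℝ) := by
    have : ∑ v ∈ B, f v ^ 2 ≤ ∑ v ∈ B, (1 : ℝ) := Finset.sum_le_sum fun v _ => by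
      rw [← sq_abs]
      exact pow_le_one₀ (abs_nonneg _) (hf v)
    simpa using this
  linarith

/-- weighted average -/
noncomputable def wav (B : Finset V) (r f : V → ℝ) : ℝ := (∑ v ∈ B, r v * f v) / ∑ v ∈ B, r v

/-- sum divided by `P` -/
noncomputable def mn (B : Finset V) (P : ℝ) (r : V → ℝ) : ℝ := (∑ v ∈ B, r v) / P

theorem sum_wav (B : Finset V) (r f : V → ℝ) (hr : ∀ v, 0 ≤ r v) :
    ∑ v ∈ B, r v * f v = (∑ v ∈ B, r v) * wav B r f := by
  unfold wav
  by_cases h : ∑ v ∈ B, r v = 0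
  · rw [h, zero_mul]
    have h1 := (Finset.sum_eq_zero_iff_of_nonneg (fun v _ => hr v)).1 h
    exact Finset.sum_eq_zero fun v hv => by rw [h1 v hv, zero_mul]
  · field_simp

theorem abs_wav (B : Finset V) (r f : V → ℝ) (hr : ∀ v, 0 ≤ r v) (hf : ∀ v, |f v| ≤ 1) :
    |wav B r f| ≤ 1 := by
  have h0 : 0 ≤ ∑ v ∈ B, r v := Finset.sum_nonneg fun v _ => hr v
  unfold wav
  rw [abs_div, abs_of_nonneg h0]
  apply div_le_one_of_le₀ _ h0
  refine (Finset.abs_sum_le_sum_abs _ _).trans ?_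
  refine Finset.sum_le_sum fun v _ => ?_
  rw [abs_mul, abs_of_nonneg (hr v)]
  exact mul_le_of_le_one_right (hr v) (hf v)

theorem bessel (B : Finset V) (f : V → ℝ) (hf : ∀ v, |f v| ≤ 1) (J : Finset ι) (e : ι → ℝ)
    (he : ∀ i, 0 < e i) (r : ι → V → ℝ) (hr : ∀ i v, 0 ≤ r i v) (P : ℝ) (hP : 0 < P) :
    ∑ i ∈ J, (wav B (r i) f - wav B (fun _ => 1) f) ^ 2 / e i ≤ mn B P (fun _ => 1) +
      (∑ i ∈ J, 4 * (e i)⁻¹ * (|mn B P (r i) - 1| + |mn B P (fun _ => 1) - 1|) +
       ∑ i ∈ J, ∑ j ∈ J, 4 * ((e i)⁻¹ * (e j)⁻¹) * |mn B P (fun v => r i v * r j v) -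
        mn B P (r i) - mn B P (r j) + mn B P (fun _ => 1) - (if i = j then e i else 0)|) := by
  set a := wav B (fun _ => 1) f with ha
  have haa : |a| ≤ 1 := abs_wav _ _ _ (fun _ => zero_le_one) hf
  have hai : ∀ i, |wav B (r i) f| ≤ 1 := fun i => abs_wav _ _ _ (hr i) hf
  let δ : ι → ℝ := fun i => wav B (r i) f - a
  let w : ι → ℝ := fun i => (e i)⁻¹
  have hw : ∀ i, 0 < w i := fun i => inv_pos.2 (he i)
  have hδ : ∀ i, |δ i| ≤ 2 := fun i => by
    have := abs_sub (wav B (r i) f) a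
    have h2 := hai i
    show |wav B (r i) f - a| ≤ 2
    linarith
  let g : ι → V → ℝ := fun i v => r i v - 1
  have key := bessel0 B f hf J (fun i => w i * δ i) g
  have h1 : ∀ i, ∑ v ∈ B, f v * g i v = P * (mn B P (r i) * wav B (r i) f - mn B P (fun _ => 1) * a) := by
    intro i
    have e1 : ∑ v ∈ B, f v * g i v = ∑ v ∈ B, r i v * f v -
        ∑ v ∈ B, (1 : ℝ) * f v := by
      rw [← Finset.sum_sub_distrib]
      refine Finset.sum_congr rfl fun v _ => ?_
      show f v * (r i v - 1) = _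
      ring
    rw [e1, sum_wav B (r i) f (hr i), sum_wav B (fun _ => 1) f (fun _ => zero_le_one), ← ha]
    unfold mn
    field_simp
  have h2 : ∀ i j, ∑ v ∈ B, g i v * g j v = P * (mn B P (fun v => r i v * r j v) -
        mn B P (r i) - mn B P (r j) + mn B P (fun _ => 1)) := by
    intro i j
    have e1 : ∑ v ∈ B, g i v * g j v = ∑ v ∈ B, r i v * r j v - ∑ v ∈ B, r i v - ∑ v ∈ B, r j v +
        ∑ v ∈ B, (1 : ℝ) := by
      rw [← Finset.sum_sub_distrib,
        ← Finset.sum_sub_distrib, ← Finset.sum_add_distrib]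
      refine Finset.sum_congr rfl fun v _ => ?_
      show (r i v - 1) * (r j v - 1) = _
      ring
    rw [e1]
    unfold mn
    field_simp
  simp_rw [h1, h2] at key
  have hcard : (B.card : ℝ) = P * mn B P (fun _ => 1) := by
    unfold mn
    rw [Finset.sum_const, nsmul_eq_mul, mul_one]
    field_simp
  rw [hcard] at key
  have key2 : 2 * ∑ i ∈ J, w i * δ i * (mn B P (r i) * wav B (r i) f - mn B P (fun _ => 1) * a) -
      ∑ i ∈ J, ∑ j ∈ J, w i * δ i * (w j * δ j) * (mn B P (fun v => r i v * r j v) -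
        mn B P (r i) - mn B P (r j) + mn B P (fun _ => 1)) ≤ mn B P (fun _ => 1) := by
    have e1 : 2 * ∑ i ∈ J, w i * δ i * (P * (mn B P (r i) * wav B (r i) f - mn B P (fun _ => 1) * a)) -
      ∑ i ∈ J, ∑ j ∈ J, w i * δ i * (w j * δ j) * (P * (mn B P (fun v => r i v * r j v) -
        mn B P (r i) - mn B P (r j) + mn B P (fun _ => 1))) =
      P * (2 * ∑ i ∈ J, w i * δ i * (mn B P (r i) * wav B (r i) f - mn B P (fun _ => 1) * a) -
      ∑ i ∈ J, ∑ j ∈ J, w i * δ i * (w j * δ j) * (mn B P (fun v => r i v * r j v) -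
        mn B P (r i) - mn B P (r j) + mn B P (fun _ => 1))) := by
      rw [mul_sub, Finset.mul_sum (s := J) (a := P), Finset.mul_sum (s := J) (a := 2), Finset.mul_sum (s := J) (a := 2),
        Finset.mul_sum]
      congr 1
      · refine Finset.sum_congr rfl fun i _ => ?_
        ring
      · refine Finset.sum_congr rfl fun i _ => ?_
        rw [Finset.mul_sum]
        refine Finset.sum_congr rfl fun j _ => ?_
        ring
    rw [e1] at key
    exact le_of_mul_le_mul_left key hP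
  have hT : ∑ i ∈ J, (wav B (r i) f - a) ^ 2 / e i = ∑ i ∈ J, w i * δ i ^ 2 := by
    refine Finset.sum_congr rfl fun i _ => ?_
    show _ = (e i)⁻¹ * (wav B (r i) f - a) ^ 2
    rw [div_eq_inv_mul]
  rw [hT]
  have b1 : ∑ i ∈ J, w i * δ i ^ 2 - ∑ i ∈ J, w i * δ i * (mn B P (r i) * wav B (r i) f - mn B P (fun _ => 1) * a) ≤
      ∑ i ∈ J, 2 * w i * (|mn B P (r i) - 1| + |mn B P (fun _ => 1) - 1|) := by
    rw [← Finset.sum_sub_distrib]
    refine Finset.sum_le_sum fun i _ => ?_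
    have e : w i * δ i ^ 2 - w i * δ i * (mn B P (r i) * wav B (r i) f - mn B P (fun _ => 1) * a) =
        w i * (δ i * ((mn B P (fun _ => 1) - 1) * a - (mn B P (r i) - 1) * wav B (r i) f)) := by
      show w i * (wav B (r i) f - a) ^ 2 - w i * (wav B (r i) f - a) * _ =
        w i * ((wav B (r i) f - a) * _)
      ring
    rw [e]
    have : δ i * ((mn B P (fun _ => 1) - 1) * a - (mn B P (r i) - 1) * wav B (r i) f) ≤
        2 * (|mn B P (r i) - 1| + |mn B P (fun _ => 1) - 1|) := by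
      refine (le_abs_self _).trans ?_
      rw [abs_mul]
      refine mul_le_mul (hδ i) ?_ (abs_nonneg _) (by norm_num)
      refine (abs_sub _ _).trans ?_
      rw [abs_mul, abs_mul]
      have q1 : |mn B P (fun _ => 1) - 1| * |a| ≤ |mn B P (fun _ => 1) - 1| :=
        mul_le_of_le_one_right (abs_nonneg _) haa
      have q2 : |mn B P (r i) - 1| * |wav B (r i) f| ≤ |mn B P (r i) - 1| :=
        mul_le_of_le_one_right (abs_nonneg _) (hai i)
      linarith
    have := mul_le_mul_of_nonneg_left this (hw i).le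
    linarith
  have b2 : ∑ i ∈ J, ∑ j ∈ J, w i * δ i * (w j * δ j) * (mn B P (fun v => r i v * r j v) -
        mn B P (r i) - mn B P (r j) + mn B P (fun _ => 1)) - ∑ i ∈ J, w i * δ i ^ 2 ≤
      ∑ i ∈ J, ∑ j ∈ J, 4 * (w i * w j) * |mn B P (fun v => r i v * r j v) -
        mn B P (r i) - mn B P (r j) + mn B P (fun _ => 1) - (if i = j then e i else 0)| := by
    rw [← Finset.sum_sub_distrib]
    refine Finset.sum_le_sum fun i hi => ?_
    have e : w i * δ i ^ 2 = ∑ j ∈ J, w i * δ i * (w j * δ j) * (if i = j then e i else 0) := by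
      rw [Finset.sum_eq_single i]
      · rw [if_pos rfl]
        have : w i * (e i) = 1 := inv_mul_cancel₀ (he i).ne'
        calc w i * δ i ^ 2 = w i * δ i ^ 2 * (w i * (e i)) := by rw [this, mul_one]
          _ = _ := by ring
      · intro j _ hj
        rw [if_neg (Ne.symm hj), mul_zero]
      · intro h; exact absurd hi h
    rw [e, ← Finset.sum_sub_distrib]
    refine Finset.sum_le_sum fun j _ => ?_
    rw [← mul_sub]
    refine (le_abs_self _).trans ?_
    rw [abs_mul]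
    refine mul_le_mul_of_nonneg_right ?_ (abs_nonneg _)
    rw [abs_mul, abs_mul, abs_mul, abs_of_pos (hw i), abs_of_pos (hw j)]
    have : |δ i| * |δ j| ≤ 4 := by
      have := mul_le_mul (hδ i) (hδ j) (abs_nonneg _) (by norm_num)
      linarith
    have h3 : 0 ≤ w i * w j := (mul_pos (hw i) (hw j)).le
    nlinarith
  have b3 : ∑ i ∈ J, 4 * w i * (|mn B P (r i) - 1| + |mn B P (fun _ => 1) - 1|) =
      2 * ∑ i ∈ J, 2 * w i * (|mn B P (r i) - 1| + |mn B P (fun _ => 1) - 1|) := by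
    rw [Finset.mul_sum]
    refine Finset.sum_congr rfl fun i _ => ?_
    ring
  show ∑ i ∈ J, w i * δ i ^ 2 ≤ mn B P (fun _ => 1) +
      (∑ i ∈ J, 4 * w i * (|mn B P (r i) - 1| + |mn B P (fun _ => 1) - 1|) +
       ∑ i ∈ J, ∑ j ∈ J, 4 * (w i * w j) * |mn B P (fun v => r i v * r j v) -
        mn B P (r i) - mn B P (r j) + mn B P (fun _ => 1) - (if i = j then e i else 0)|)
  rw [b3]
  linarith

end alg

section lim

variable {V ι : Type*} [DecidableEq ι]

/-- the uniform inequality in the limit -/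
theorem core (B : ℕ → Finset V) (P : ℕ → ℝ) (hP : ∀ᶠ N in atTop, 0 < P N) (r : ι → V → ℝ)
    (hr : ∀ i v, 0 ≤ r i v) (e : ι → ℝ)
    (he : ∀ i, 0 < e i) (h1 : Tendsto (fun N => mn (B N) (P N) (fun _ => 1)) atTop (𝓝 1))
    (h2 : ∀ i, Tendsto (fun N => mn (B N) (P N) (r i)) atTop (𝓝 1))
    (h3 : ∀ i j, i ≠ j → Tendsto (fun N => mn (B N) (P N) (fun v => r i v * r j v)) atTop (𝓝 1))
    (h4 : ∀ i, Tendsto (fun N => mn (B N) (P N) (fun v => r i v * r i v)) atTop (𝓝 (e i + 1)))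
    (J : Finset ι) (ε : ℝ) (hε : 0 < ε) :
    ∀ᶠ N in atTop, ∀ f : V → ℝ, (∀ v, |f v| ≤ 1) →
      ∑ i ∈ J, (wav (B N) (r i) f - wav (B N) (fun _ => 1) f) ^ 2 / e i ≤ 1 + ε := by
  have t1 : ∀ i, Tendsto (fun N => |mn (B N) (P N) (r i) - 1|) atTop (𝓝 0) := by
    intro i
    simpa using ((h2 i).sub_const 1).abs
  have t2 : Tendsto (fun N => |mn (B N) (P N) (fun _ => 1) - 1|) atTop (𝓝 0) := by
    simpa using (h1.sub_const 1).abs
  have t3 : ∀ i j, Tendsto (fun N => |mn (B N) (P N) (fun v => r i v * r j v) -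
        mn (B N) (P N) (r i) - mn (B N) (P N) (r j) + mn (B N) (P N) (fun _ => 1) -
        (if i = j then e i else 0)|) atTop (𝓝 0) := by
    intro i j
    by_cases hij : i = j
    · subst hij
      have := (((((h4 i).sub (h2 i)).sub (h2 i)).add h1).sub_const (e i)).abs
      rw [show e i + 1 - 1 - 1 + 1 - e i = 0 by ring, abs_zero] at this
      simpa only [if_true] using this
    · have := (((((h3 i j hij).sub (h2 i)).sub (h2 j)).add h1).sub_const 0).abs
      rw [show (1 : ℝ) - 1 - 1 + 1 - 0 = 0 by ring, abs_zero] at this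
      simpa only [if_neg hij] using this
  have t4 : Tendsto (fun N => mn (B N) (P N) (fun _ => 1) +
      (∑ i ∈ J, 4 * (e i)⁻¹ * (|mn (B N) (P N) (r i) - 1| + |mn (B N) (P N) (fun _ => 1) - 1|) +
       ∑ i ∈ J, ∑ j ∈ J, 4 * ((e i)⁻¹ * (e j)⁻¹) * |mn (B N) (P N) (fun v => r i v * r j v) -
        mn (B N) (P N) (r i) - mn (B N) (P N) (r j) + mn (B N) (P N) (fun _ => 1) -
        (if i = j then e i else 0)|)) atTop (𝓝 (1 + (∑ i ∈ J, 4 * (e i)⁻¹ * (0 + 0) +
          ∑ i ∈ J, ∑ j ∈ J, 4 * ((e i)⁻¹ * (e j)⁻¹) * 0))) := by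
    refine h1.add (Tendsto.add ?_ ?_)
    · exact tendsto_finsetSum _ fun i _ => ((t1 i).add t2).const_mul _
    · exact tendsto_finsetSum _ fun i _ => tendsto_finsetSum _ fun j _ => (t3 i j).const_mul _
  have h0 : (1 : ℝ) + (∑ i ∈ J, 4 * (e i)⁻¹ * (0 + 0) +
          ∑ i ∈ J, ∑ j ∈ J, 4 * ((e i)⁻¹ * (e j)⁻¹) * 0) < 1 + ε := by
    simp [hε]
  filter_upwards [hP, t4.eventually_lt_const h0] with N hN hlt f hf
  exact (bessel (B N) f hf J e he r hr (P N) hN).trans hlt.le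

end lim

section approx

variable {V : Type*}

/-- approximate limits along the weights give the approximate limit -/
theorem approx (B : ℕ → Finset V) (r : ℕ → V → ℝ) (e : ℕ → ℝ) (he : ∀ i, 0 < e i)
    (hB : ∀ (J : Finset ℕ) (ε : ℝ), 0 < ε → ∀ᶠ N in atTop, ∀ f : V → ℝ, (∀ v, |f v| ≤ 1) →
      ∑ i ∈ J, (wav (B N) (r i) f - wav (B N) (fun _ => 1) f) ^ 2 / e i ≤ 1 + ε)
    (hs : ¬ Summable fun i => 1 / e i) (f : V → ℝ) (hf : ∀ v, |f v| ≤ 1) (c η : ℝ) (hη : 0 < η)
    (i₀ : ℕ) (hc : ∀ i, i₀ ≤ i → ∀ᶠ N in atTop, |wav (B N) (r i) f - c| ≤ η / 2) :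
    ∀ᶠ N in atTop, |wav (B N) (fun _ => 1) f - c| < η := by
  have hw : ∀ i, 0 ≤ 1 / e i := fun i => div_nonneg zero_le_one (he i).le
  have h1 : ∃ J : Finset ℕ, 2 < (η / 2) ^ 2 * ∑ i ∈ J, 1 / e (i + i₀) := by
    by_contra h
    push Not at h
    apply hs
    rw [← summable_nat_add_iff i₀]
    refine summable_of_sum_le (fun i => hw (i + i₀)) (c := 2 / (η / 2) ^ 2) fun J => ?_
    rw [le_div_iff₀ (by positivity), mul_comm]
    exact h J
  obtain ⟨J', hJ'⟩ := h1
  let J : Finset ℕ := J'.map (addRightEmbedding i₀)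
  have hJ : 2 < (η / 2) ^ 2 * ∑ i ∈ J, 1 / e i := by
    rw [Finset.sum_map]
    exact hJ'
  have h2 : ∀ᶠ N in atTop, ∀ i ∈ J, |wav (B N) (r i) f - c| ≤ η / 2 := by
    rw [Filter.eventually_all_finset]
    intro i hi
    obtain ⟨k, _, rfl⟩ := Finset.mem_map.1 hi
    exact hc _ (Nat.le_add_left _ _)
  filter_upwards [h2, hB J 1 one_pos] with N h3 h4
  by_contra hcon
  push Not at hcon
  have h5 := h4 f hf
  have h6 : (η / 2) ^ 2 * ∑ i ∈ J, 1 / e i ≤
      ∑ i ∈ J, (wav (B N) (r i) f - wav (B N) (fun _ => 1) f) ^ 2 / e i := by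
    rw [Finset.mul_sum]
    refine Finset.sum_le_sum fun i hi => ?_
    rw [mul_one_div]
    apply div_le_div_of_nonneg_right _ (he i).le
    have h7 := h3 i hi
    have h8 : η / 2 ≤ |wav (B N) (r i) f - wav (B N) (fun _ => 1) f| := by
      have := abs_sub_abs_le_abs_sub (wav (B N) (fun _ => 1) f - c) (wav (B N) (r i) f - c)
      rw [show wav (B N) (fun _ => 1) f - c - (wav (B N) (r i) f - c) =
        -(wav (B N) (r i) f - wav (B N) (fun _ => 1) f) by ring, abs_neg] at this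
      linarith
    calc (η / 2) ^ 2 ≤ |wav (B N) (r i) f - wav (B N) (fun _ => 1) f| ^ 2 :=
          pow_le_pow_left₀ (by linarith) h8 2
      _ = _ := sq_abs _
  linarith

end approx

end Pool.Agent.V1142.EQ
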