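import Pool.Agent.V1142.EQ.Core
import Pool.Agent.W571.FM.Frob
import Pool.Agent.W528.Ord.Dens
import Pool.Agent.W401.Cheb.Frob

/-! Chebotarev's theorem for averages of class functions of chosen Frobenius elements. -/

set_option autoImplicit false
set_option linter.all false

namespace Pool.Agent.V1142.EQ

open Filter Topology Finset NumberField IsDedekindDomain

section fr

variable {V : Type*}

/-- the proportion of a set -/
noncomputable def fr (B : Finset V) (P : ℝ) (S : Set V) : ℝ := mn B P (S.indicator fun _ => 1)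

theorem fr_add (B : Finset V) (P : ℝ) (S : Set V) :
    fr B P S + fr B P Sᶜ = mn B P (fun _ => 1) := by
  unfold fr mn
  rw [← add_div, ← Finset.sum_add_distrib]
  congr 1
  refine Finset.sum_congr rfl fun v _ => ?_
  exact congrFun (Set.indicator_self_add_compl S fun _ => (1 : ℝ)) v

theorem fr_mono (B : Finset V) {P : ℝ} (hP : 0 ≤ P) {S T : Set V} (h : S ⊆ T) : fr B P S ≤ fr B P T := by
  unfold fr mn
  apply div_le_div_of_nonneg_right _ hP
  refine Finset.sum_le_sum fun v _ => ?_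
  exact Set.indicator_le_indicator_of_subset h (fun _ => zero_le_one) v

end fr

variable {F : Type} [Field F] [NumberField F]

/-- the places of norm at most `N` -/
noncomputable def bx (F : Type) [Field F] [NumberField F] (N : ℕ) : Finset (HeightOneSpectrum (𝓞 F)) :=
  (Pool.Agent.W352.ChAbs.finite_le (K := F) N).toFinset

theorem mem_bx {N : ℕ} {v : HeightOneSpectrum (𝓞 F)} : v ∈ bx F N ↔ Ideal.absNorm v.asIdeal ≤ N := by
  unfold bx
  rw [Set.Finite.mem_toFinset]
  rfl

theorem fr_bx (N : ℕ) (S : Set (HeightOneSpectrum (𝓞 F))) :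
    fr (bx F N) (Nat.primeCounting N) S = Pool.Agent.W401.Cheb.dens (fun v => v ∈ S) N := by
  classical
  unfold fr mn Pool.Agent.W401.Cheb.dens
  rw [Nat.subtype_card ((bx F N).filter (· ∈ S)) (fun v => by rw [Finset.mem_filter, mem_bx])]
  congr 1
  simp_rw [Set.indicator_apply]
  rw [← Finset.sum_filter]
  simp

/-- the places which have a Frobenius element in `C` -/
def FS (C : Set (Gal(AlgebraicClosure F/F))) : Set (HeightOneSpectrum (𝓞 F)) :=
  {v | ∃ σ ∈ C, Pool.Agent.W401.Cheb.IsFrob v σ}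

theorem FS_univ : FS (Set.univ : Set (Gal(AlgebraicClosure F/F))) = Set.univ := by
  ext v
  simp only [Set.mem_univ, iff_true]
  obtain ⟨σ, hσ⟩ := Pool.Agent.W401.Frob.exists_frob v
  exact ⟨σ, Set.mem_univ _, hσ⟩

/-- conjugation invariant subsets of the quotient -/
def CI {Q : Type*} [Group Q] (C : Set Q) : Prop := ∀ x ∈ C, ∀ y, y * x * y⁻¹ ∈ C

theorem CI_compl {Q : Type*} [Group Q] {C : Set Q} (h : CI C) : CI Cᶜ := by
  intro x hx y hy
  apply hx
  have := h _ hy y⁻¹
  simpa [mul_assoc] using this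

theorem cheb (U : Subgroup (Gal(AlgebraicClosure F/F))) [hn : U.Normal] (hU : IsOpen (U : Set (Gal(AlgebraicClosure F/F))))
    (C : Set (Gal(AlgebraicClosure F/F) ⧸ U)) (h1 : CI C) :
    Tendsto (fun N : ℕ => fr (bx F N) (Nat.primeCounting N)
      (FS ((QuotientGroup.mk : Gal(AlgebraicClosure F/F) → Gal(AlgebraicClosure F/F) ⧸ U) ⁻¹' C))) atTop
      (𝓝 ((C.ncard : ℝ) / (Nat.card (Gal(AlgebraicClosure F/F) ⧸ U) : ℝ))) := by
  have := Pool.Agent.W528.Ord.chebK F U hU
    ((QuotientGroup.mk : Gal(AlgebraicClosure F/F) → Gal(AlgebraicClosure F/F) ⧸ U) ⁻¹' C)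
    (fun x hx y => h1 _ hx (QuotientGroup.mk y))
    (fun x hx u hu => by
      have e : (QuotientGroup.mk (x * u) : Gal(AlgebraicClosure F/F) ⧸ U) = QuotientGroup.mk x :=
        QuotientGroup.mk_mul_of_mem x hu
      show (QuotientGroup.mk (x * u) : Gal(AlgebraicClosure F/F) ⧸ U) ∈ C
      rw [e]
      exact hx)
  rw [Set.image_preimage_eq _ QuotientGroup.mk_surjective] at this
  refine this.congr fun N => ?_
  rw [fr_bx]
  rfl

theorem lim_univ : Tendsto (fun N : ℕ => mn (bx F N) (Nat.primeCounting N) (fun _ => 1)) atTop (𝓝 1) := by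
  have h := cheb (F := F) ⊤ isOpen_univ Set.univ (fun _ _ _ => Set.mem_univ _)
  rw [Set.preimage_univ, FS_univ] at h
  have e : ((Set.univ : Set (Gal(AlgebraicClosure F/F) ⧸
      (⊤ : Subgroup (Gal(AlgebraicClosure F/F))))).ncard : ℝ) /
        (Nat.card (Gal(AlgebraicClosure F/F) ⧸ (⊤ : Subgroup (Gal(AlgebraicClosure F/F)))) : ℝ) = 1 := by
    rw [Set.ncard_univ]
    apply div_self
    have : Nat.card (Gal(AlgebraicClosure F/F) ⧸ (⊤ : Subgroup (Gal(AlgebraicClosure F/F)))) = 1 := by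
      rw [← Subgroup.index_eq_card, Subgroup.index_top]
    rw [this]
    norm_num
  rw [e] at h
  refine h.congr fun N => ?_
  unfold fr
  rw [Set.indicator_univ]

section chosen

variable (φ : HeightOneSpectrum (𝓞 F) → Gal(AlgebraicClosure F/F))
  (hφ : ∀ v, Pool.Agent.W401.Cheb.IsFrob v (φ v))

include hφ in
theorem cheb_set (U : Subgroup (Gal(AlgebraicClosure F/F))) [hn : U.Normal]
    (hU : IsOpen (U : Set (Gal(AlgebraicClosure F/F))))
    (C : Set (Gal(AlgebraicClosure F/F) ⧸ U)) (h1 : CI C) :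
    Tendsto (fun N : ℕ => fr (bx F N) (Nat.primeCounting N)
      {v | (QuotientGroup.mk (φ v) : Gal(AlgebraicClosure F/F) ⧸ U) ∈ C}) atTop
      (𝓝 ((C.ncard : ℝ) / (Nat.card (Gal(AlgebraicClosure F/F) ⧸ U) : ℝ))) := by
  haveI hfin : Finite (Gal(AlgebraicClosure F/F) ⧸ U) := Subgroup.quotient_finite_of_isOpen _ hU
  have a1 := cheb U hU C h1
  have a2 := (lim_univ (F := F)).sub (cheb U hU Cᶜ (CI_compl h1))
  have hc : (0 : ℝ) < (Nat.card (Gal(AlgebraicClosure F/F) ⧸ U) : ℝ) := by exact_mod_cast Nat.card_pos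
  have e2 : 1 - ((Cᶜ.ncard : ℕ) : ℝ) / (Nat.card (Gal(AlgebraicClosure F/F) ⧸ U) : ℝ) =
      (C.ncard : ℝ) / (Nat.card (Gal(AlgebraicClosure F/F) ⧸ U) : ℝ) := by
    have := Set.ncard_add_ncard_compl C
    rw [← this]
    rw [← this] at hc
    push_cast at hc ⊢
    field_simp
    ring
  rw [e2] at a2
  refine tendsto_of_tendsto_of_tendsto_of_le_of_le a2 a1 (fun N => ?_) (fun N => ?_)
  · have h3 := fr_add (bx F N) (Nat.primeCounting N : ℝ)
      {v | (QuotientGroup.mk (φ v) : Gal(AlgebraicClosure F/F) ⧸ U) ∈ C}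
    have h4 : fr (bx F N) (Nat.primeCounting N)
        {v | (QuotientGroup.mk (φ v) : Gal(AlgebraicClosure F/F) ⧸ U) ∈ C}ᶜ ≤
        fr (bx F N) (Nat.primeCounting N)
      (FS ((QuotientGroup.mk : Gal(AlgebraicClosure F/F) → Gal(AlgebraicClosure F/F) ⧸ U) ⁻¹' Cᶜ)) :=
      fr_mono _ (Nat.cast_nonneg _) fun v hv => ⟨φ v, hv, hφ v⟩
    show mn (bx F N) (Nat.primeCounting N) (fun _ => 1) - _ ≤ _
    linarith
  · exact fr_mono _ (Nat.cast_nonneg _) fun v hv => ⟨φ v, hv, hφ v⟩

include hφ in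
/-- Chebotarev for class functions -/
theorem cheb_fun (U : Subgroup (Gal(AlgebraicClosure F/F))) [hn : U.Normal]
    (hU : IsOpen (U : Set (Gal(AlgebraicClosure F/F)))) [Fintype (Gal(AlgebraicClosure F/F) ⧸ U)]
    (h : Gal(AlgebraicClosure F/F) ⧸ U → ℝ) (hh : ∀ x y, h (y * x * y⁻¹) = h x) :
    Tendsto (fun N : ℕ => mn (bx F N) (Nat.primeCounting N)
      (fun v => h (QuotientGroup.mk (φ v)))) atTop
      (𝓝 ((∑ q, h q) / (Fintype.card (Gal(AlgebraicClosure F/F) ⧸ U) : ℝ))) := by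
  classical
  let Y : Finset ℝ := Finset.univ.image h
  have e1 : ∀ q, h q = ∑ y ∈ Y, y * (({q | h q = y} : Set (Gal(AlgebraicClosure F/F) ⧸ U)).indicator (fun _ => (1 : ℝ)) q) := by
    intro q
    rw [Finset.sum_eq_single (h q)]
    · rw [Set.indicator_of_mem (show q ∈ {q' | h q' = h q} from rfl), mul_one]
    · intro y _ hy
      have hq : q ∉ ({q' | h q' = y} : Set (Gal(AlgebraicClosure F/F) ⧸ U)) := fun hq => hy (Eq.symm hq)
      rw [Set.indicator_of_notMem hq, mul_zero]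
    · intro hq
      exact absurd (Finset.mem_image_of_mem h (Finset.mem_univ q)) hq
  have e2 : ∀ N, mn (bx F N) (Nat.primeCounting N) (fun v => h (QuotientGroup.mk (φ v))) =
      ∑ y ∈ Y, y * fr (bx F N) (Nat.primeCounting N)
        {v | (QuotientGroup.mk (φ v) : Gal(AlgebraicClosure F/F) ⧸ U) ∈ {q | h q = y}} := by
    intro N
    unfold fr mn
    have : ∑ v ∈ bx F N, h (QuotientGroup.mk (φ v)) = ∑ y ∈ Y, y * ∑ v ∈ bx F N,
        ({v | (QuotientGroup.mk (φ v) : Gal(AlgebraicClosure F/F) ⧸ U) ∈ {q | h q = y}} :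
          Set (HeightOneSpectrum (𝓞 F))).indicator (fun _ => (1 : ℝ)) v := by
      simp_rw [Finset.mul_sum]
      rw [Finset.sum_comm]
      refine Finset.sum_congr rfl fun v _ => ?_
      rw [e1 (QuotientGroup.mk (φ v))]
      rfl
    rw [this, Finset.sum_div]
    refine Finset.sum_congr rfl fun y _ => ?_
    rw [mul_div_assoc]
  have e3 : (∑ q, h q) / (Fintype.card (Gal(AlgebraicClosure F/F) ⧸ U) : ℝ) =
      ∑ y ∈ Y, y * ((({q | h q = y} : Set (Gal(AlgebraicClosure F/F) ⧸ U)).ncard : ℝ) /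
        (Nat.card (Gal(AlgebraicClosure F/F) ⧸ U) : ℝ)) := by
    rw [Nat.card_eq_fintype_card]
    simp_rw [← mul_div_assoc]
    rw [← Finset.sum_div]
    congr 1
    have : ∀ y, (({q | h q = y} : Set (Gal(AlgebraicClosure F/F) ⧸ U)).ncard : ℝ) =
        ∑ q, ({q | h q = y} : Set (Gal(AlgebraicClosure F/F) ⧸ U)).indicator (fun _ => (1 : ℝ)) q := by
      intro y
      simp_rw [Set.indicator_apply]
      rw [← Finset.sum_filter, Finset.sum_const, nsmul_eq_mul, mul_one]
      congr 1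
      rw [← Set.ncard_coe_finset]
      congr 1
      ext q
      simp
    simp_rw [this, Finset.mul_sum]
    rw [Finset.sum_comm]
    exact Finset.sum_congr rfl fun q _ => e1 q
  rw [e3]
  simp_rw [e2]
  refine tendsto_finsetSum _ fun y _ => Tendsto.const_mul y ?_
  refine cheb_set φ hφ U hU {q | h q = y} ?_
  intro x hx z
  show h (z * x * z⁻¹) = y
  rw [hh]
  exact hx

end chosen

end Pool.Agent.V1142.EQ
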