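import Pool.Agent.V1142.EQ.Avg

/-! Cosets and embeddings. -/

set_option autoImplicit false
set_option linter.all false

namespace Pool.Agent.V1142.EQ

open Filter Topology Finset NumberField IsDedekindDomain MulAction

section

variable {F : Type} [Field F]

/-- The number of `F`-embeddings `τ` of `K` in the algebraic closure of `F` with `σ ∘ τ = τ`. -/
noncomputable def fixedEmbeddings (K : IntermediateField F (AlgebraicClosure F))
    (σ : Gal(AlgebraicClosure F/F)) : ℕ :=
  Nat.card {τ : K →ₐ[F] AlgebraicClosure F // ∀ x, σ (τ x) = τ x}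

/-- Two pairs of `F`-embeddings of `K` in the algebraic closure of `F` are equivalent if they are
conjugate under the absolute Galois group of `F`. -/
def pairs (K : IntermediateField F (AlgebraicClosure F)) :
    Setoid ((K →ₐ[F] AlgebraicClosure F) × (K →ₐ[F] AlgebraicClosure F)) where
  r p q := ∃ σ : Gal(AlgebraicClosure F/F), (∀ x, σ (q.1 x) = p.1 x) ∧ ∀ x, σ (q.2 x) = p.2 x
  iseqv := {
    refl := fun p => ⟨1, fun _ => rfl, fun _ => rfl⟩
    symm := by
      rintro p q ⟨σ, h1, h2⟩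
      refine ⟨σ⁻¹, fun x => ?_, fun x => ?_⟩
      · rw [← h1]
        exact σ.symm_apply_apply _
      · rw [← h2]
        exact σ.symm_apply_apply _
    trans := by
      rintro p q r ⟨σ, h1, h2⟩ ⟨τ, h3, h4⟩
      refine ⟨σ * τ, fun x => ?_, fun x => ?_⟩
      · rw [AlgEquiv.mul_apply, h3, h1]
      · rw [AlgEquiv.mul_apply, h4, h2] }

/-- The number of orbits of the absolute Galois group of `F` on the pairs of `F`-embeddings of `K`, that
is, the number of fields in the decomposition of `K ⊗ K` (over `F`). -/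
noncomputable def rankOf (K : IntermediateField F (AlgebraicClosure F)) : ℕ :=
  Nat.card (Quotient (pairs K))

/-- the restriction of an automorphism -/
noncomputable def res (K : IntermediateField F (AlgebraicClosure F)) (σ : Gal(AlgebraicClosure F/F)) :
    K →ₐ[F] AlgebraicClosure F := (σ : AlgebraicClosure F →ₐ[F] AlgebraicClosure F).comp K.val

theorem res_eq (K : IntermediateField F (AlgebraicClosure F)) (σ τ : Gal(AlgebraicClosure F/F)) :
    res K σ = res K τ ↔ (QuotientGroup.mk σ : Gal(AlgebraicClosure F/F) ⧸ K.fixingSubgroup) =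
      QuotientGroup.mk τ := by
  rw [QuotientGroup.eq]
  constructor
  · intro h x
    have h1 : σ (x : AlgebraicClosure F) = τ x := DFunLike.congr_fun h x
    show (σ⁻¹ * τ) (x : AlgebraicClosure F) = x
    rw [AlgEquiv.mul_apply, ← h1]
    exact σ.symm_apply_apply _
  · intro h
    refine AlgHom.ext fun x => ?_
    have h1 : (σ⁻¹ * τ) (x : AlgebraicClosure F) = x := h x
    show σ (x : AlgebraicClosure F) = τ x
    rw [AlgEquiv.mul_apply] at h1
    have h2 := congrArg σ h1
    rw [← h2]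
    exact σ.apply_symm_apply _

theorem res_surj [CharZero F] (K : IntermediateField F (AlgebraicClosure F)) (τ : K →ₐ[F] AlgebraicClosure F) :
    ∃ σ, res K σ = τ := by
  let ψ : AlgebraicClosure F →ₐ[F] AlgebraicClosure F := τ.liftNormal (AlgebraicClosure F)
  have hb : Function.Bijective ψ := Algebra.IsAlgebraic.algHom_bijective ψ
  refine ⟨AlgEquiv.ofBijective ψ hb, AlgHom.ext fun x => ?_⟩
  exact τ.liftNormal_commutes (AlgebraicClosure F) x

/-- cosets and embeddings -/
noncomputable def cosetEmb [CharZero F] (K : IntermediateField F (AlgebraicClosure F)) :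
    (Gal(AlgebraicClosure F/F) ⧸ K.fixingSubgroup) ≃ (K →ₐ[F] AlgebraicClosure F) :=
  Equiv.ofBijective (fun q => res K q.out) (by
    constructor
    · intro q q' h
      have := (res_eq K _ _).1 h
      rwa [QuotientGroup.out_eq', QuotientGroup.out_eq'] at this
    · intro τ
      obtain ⟨σ, rfl⟩ := res_surj K τ
      refine ⟨QuotientGroup.mk σ, (res_eq K _ _).2 ?_⟩
      rw [QuotientGroup.out_eq'])

theorem cosetEmb_mk [CharZero F] (K : IntermediateField F (AlgebraicClosure F)) (σ : Gal(AlgebraicClosure F/F)) :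
    cosetEmb K (QuotientGroup.mk σ) = res K σ := by
  show res K (QuotientGroup.mk σ : Gal(AlgebraicClosure F/F) ⧸ K.fixingSubgroup).out = _
  rw [res_eq, QuotientGroup.out_eq']

theorem cosetEmb_smul [CharZero F] (K : IntermediateField F (AlgebraicClosure F)) (σ : Gal(AlgebraicClosure F/F))
    (q : Gal(AlgebraicClosure F/F) ⧸ K.fixingSubgroup) (x : K) :
    cosetEmb K (σ • q) x = σ (cosetEmb K q x) := by
  obtain ⟨g, rfl⟩ := QuotientGroup.mk_surjective q
  show cosetEmb K (QuotientGroup.mk (σ * g)) x = _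
  rw [cosetEmb_mk, cosetEmb_mk]
  rfl

theorem fixed_eq [CharZero F] (K : IntermediateField F (AlgebraicClosure F)) (σ : Gal(AlgebraicClosure F/F)) :
    Nat.card (fixedBy (Gal(AlgebraicClosure F/F) ⧸ K.fixingSubgroup) σ) = fixedEmbeddings K σ := by
  refine Nat.card_congr ((cosetEmb K).subtypeEquiv fun q => ?_)
  show σ • q = q ↔ ∀ x, σ (cosetEmb K q x) = cosetEmb K q x
  rw [← (cosetEmb K).injective.eq_iff, AlgHom.ext_iff]
  refine forall_congr' fun x => ?_
  rw [cosetEmb_smul]

theorem rank_eq [CharZero F] (K : IntermediateField F (AlgebraicClosure F)) :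
    rank K.fixingSubgroup = rankOf K := by
  refine Nat.card_congr (Quotient.congr ((cosetEmb K).prodCongr (cosetEmb K)) fun p q => ?_)
  show p ∈ orbit _ q ↔ ∃ σ : Gal(AlgebraicClosure F/F), (∀ x, σ (cosetEmb K q.1 x) = cosetEmb K p.1 x) ∧
    ∀ x, σ (cosetEmb K q.2 x) = cosetEmb K p.2 x
  have h : ∀ (σ : Gal(AlgebraicClosure F/F)) (a b : Gal(AlgebraicClosure F/F) ⧸ K.fixingSubgroup),
      (∀ x, σ (cosetEmb K a x) = cosetEmb K b x) ↔ σ • a = b := by
    intro σ a b
    rw [← (cosetEmb K).injective.eq_iff, AlgHom.ext_iff]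
    refine forall_congr' fun x => ?_
    rw [cosetEmb_smul]
  constructor
  · rintro ⟨σ, hσ⟩
    exact ⟨σ, (h _ _ _).2 (congrArg Prod.fst hσ), (h _ _ _).2 (congrArg Prod.snd hσ)⟩
  · rintro ⟨σ, h1, h2⟩
    exact ⟨σ, Prod.ext ((h _ _ _).1 h1) ((h _ _ _).1 h2)⟩

end

variable {F : Type} [Field F] [NumberField F]

theorem rankOf_le (K : IntermediateField F (AlgebraicClosure F)) (hK : FiniteDimensional F K) :
    rankOf K ≤ Module.finrank F K := by
  haveI := fi hK
  rw [← rank_eq, ← index_eq]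
  exact rank_le _

/-- The average of `a` over the places of `F` of norm at most `N`. -/
noncomputable def avg (a : HeightOneSpectrum (𝓞 F) → ℝ) (N : ℕ) : ℝ :=
  (∑ᶠ v ∈ {v : HeightOneSpectrum (𝓞 F) | Ideal.absNorm v.asIdeal ≤ N}, a v) /
    ({v : HeightOneSpectrum (𝓞 F) | Ideal.absNorm v.asIdeal ≤ N}.ncard : ℝ)

/-- The average of `a` over the places of `K` of relative degree one above the places of `F` of norm at
most `N`: the place `v` of `F` counts as often as there are `F`-embeddings of `K` fixed by the Frobenius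
element `φ v`. -/
noncomputable def avgOver (φ : HeightOneSpectrum (𝓞 F) → Gal(AlgebraicClosure F/F))
    (K : IntermediateField F (AlgebraicClosure F)) (a : HeightOneSpectrum (𝓞 F) → ℝ) (N : ℕ) : ℝ :=
  (∑ᶠ v ∈ {v : HeightOneSpectrum (𝓞 F) | Ideal.absNorm v.asIdeal ≤ N},
    (fixedEmbeddings K (φ v) : ℝ) * a v) /
    (∑ᶠ v ∈ {v : HeightOneSpectrum (𝓞 F) | Ideal.absNorm v.asIdeal ≤ N},
      (fixedEmbeddings K (φ v) : ℝ))

theorem finsum_bx (N : ℕ) (g : HeightOneSpectrum (𝓞 F) → ℝ) :
    ∑ᶠ v ∈ {v : HeightOneSpectrum (𝓞 F) | Ideal.absNorm v.asIdeal ≤ N}, g v = ∑ v ∈ bx F N, g v := by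
  have : {v : HeightOneSpectrum (𝓞 F) | Ideal.absNorm v.asIdeal ≤ N} = (bx F N : Set _) := by
    ext v
    rw [Finset.mem_coe, mem_bx]
    rfl
  rw [this, finsum_mem_coe_finset]

theorem avg_eq (a : HeightOneSpectrum (𝓞 F) → ℝ) (N : ℕ) : avg a N = wav (bx F N) (fun _ => 1) a := by
  unfold avg wav
  rw [finsum_bx]
  have : {v : HeightOneSpectrum (𝓞 F) | Ideal.absNorm v.asIdeal ≤ N} = (bx F N : Set _) := by
    ext v
    rw [Finset.mem_coe, mem_bx]
    rfl
  rw [this, Set.ncard_coe_finset]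
  simp

theorem avgOver_eq (φ : HeightOneSpectrum (𝓞 F) → Gal(AlgebraicClosure F/F))
    (K : IntermediateField F (AlgebraicClosure F)) (a : HeightOneSpectrum (𝓞 F) → ℝ) (N : ℕ) :
    avgOver φ K a N = wav (bx F N) (fun v => wt K (φ v)) a := by
  unfold avgOver wav wt
  rw [finsum_bx, finsum_bx]
  simp_rw [fixed_eq]

section final

variable (φ : HeightOneSpectrum (𝓞 F) → Gal(AlgebraicClosure F/F))
  (hφ : ∀ v, Pool.Agent.W401.Cheb.IsFrob v (φ v))

include hφ in
theorem bessel' {ι : Type} [DecidableEq ι] (K : ι → IntermediateField F (AlgebraicClosure F))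
    (hfin : ∀ i, FiniteDimensional F (K i)) (hne : ∀ i, K i ≠ ⊥)
    (hld : ∀ i j, i ≠ j → Module.finrank F ((K i ⊔ K j : IntermediateField F (AlgebraicClosure F))) =
      Module.finrank F (K i) * Module.finrank F (K j)) (J : Finset ι) (ε : ℝ) (hε : 0 < ε) :
    ∀ᶠ N in atTop, ∀ a : HeightOneSpectrum (𝓞 F) → ℝ, (∀ v, |a v| ≤ 1) →
      ∑ i ∈ J, (avgOver φ (K i) a N - avg a N) ^ 2 / ((rankOf (K i) : ℝ) - 1) ≤ 1 + ε := by
  have := bessel_fields φ hφ K hfin hne hld J ε hε
  simp_rw [rank_eq] at this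
  simp_rw [avgOver_eq, avg_eq]
  exact this

include hφ in
theorem equivalence' (K : ℕ → IntermediateField F (AlgebraicClosure F))
    (hfin : ∀ i, FiniteDimensional F (K i)) (hne : ∀ i, K i ≠ ⊥)
    (hld : ∀ i j, i ≠ j → Module.finrank F ((K i ⊔ K j : IntermediateField F (AlgebraicClosure F))) =
      Module.finrank F (K i) * Module.finrank F (K j))
    (hs : ¬ Summable fun i => 1 / ((rankOf (K i) : ℝ) - 1))
    (a : HeightOneSpectrum (𝓞 F) → ℝ) (C : ℝ) (ha : ∀ v, |a v| ≤ C) (c : ℝ) :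
    Tendsto (avg a) atTop (𝓝 c) ↔
      ∀ δ : ℝ, 0 < δ → ∀ᶠ m in atTop, ∀ᶠ N in atTop,
        (∑ i ∈ range m, 1 / ((rankOf (K i) : ℝ) - 1) * |avgOver φ (K i) a N - c|) /
          (∑ i ∈ range m, 1 / ((rankOf (K i) : ℝ) - 1)) ≤ δ := by
  have hs' : ¬ Summable fun i => 1 / ((rank (K i).fixingSubgroup : ℝ) - 1) := by
    simp_rw [rank_eq]
    exact hs
  have := equivalence φ hφ K hfin hne hld hs' a C ha c
  simp_rw [rank_eq] at this
  simp_rw [avgOver_eq]
  rw [← this]
  refine tendsto_congr fun N => ?_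
  rw [avg_eq]

include hφ in
theorem descent' (K : ℕ → IntermediateField F (AlgebraicClosure F))
    (hfin : ∀ i, FiniteDimensional F (K i)) (hne : ∀ i, K i ≠ ⊥)
    (hld : ∀ i j, i ≠ j → Module.finrank F ((K i ⊔ K j : IntermediateField F (AlgebraicClosure F))) =
      Module.finrank F (K i) * Module.finrank F (K j))
    (hs : ¬ Summable fun i => 1 / ((rankOf (K i) : ℝ) - 1))
    (a : HeightOneSpectrum (𝓞 F) → ℝ) (C : ℝ) (ha : ∀ v, |a v| ≤ C) (c : ℝ)
    (h : ∀ᶠ i in atTop, Tendsto (avgOver φ (K i) a) atTop (𝓝 c)) : Tendsto (avg a) atTop (𝓝 c) := by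
  have hs' : ¬ Summable fun i => 1 / ((rank (K i).fixingSubgroup : ℝ) - 1) := by
    simp_rw [rank_eq]
    exact hs
  have := descent φ hφ K hfin hne hld hs' a C ha c (fun η hη => by
    filter_upwards [h] with i hi
    filter_upwards [Metric.tendsto_nhds.1 hi η hη] with N hN
    rw [avgOver_eq, Real.dist_eq] at hN
    exact hN.le)
  refine this.congr fun N => ?_
  rw [avg_eq]

theorem not_summable' (K : ℕ → IntermediateField F (AlgebraicClosure F))
    (hfin : ∀ i, FiniteDimensional F (K i)) (hne : ∀ i, K i ≠ ⊥) (D : ℕ)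
    (h : ∃ᶠ i in atTop, rankOf (K i) ≤ D) :
    ¬ Summable fun i => 1 / ((rankOf (K i) : ℝ) - 1) := by
  have := not_summable_of_bounded K hfin hne D (by simpa only [rank_eq] using h)
  simpa only [rank_eq] using this

end final

end Pool.Agent.V1142.EQ
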