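import Pool.Agent.V1142.EQ.Burn

/-! Bessel's inequality and descent of equidistribution for linearly disjoint extensions of a
number field. -/

set_option autoImplicit false
set_option linter.all false

namespace Pool.Agent.V1142.EQ

open Filter Topology Finset NumberField IsDedekindDomain MulAction

variable {F : Type} [Field F] [NumberField F]

theorem index_eq (K : IntermediateField F (AlgebraicClosure F)) :
    K.fixingSubgroup.index = Module.finrank F K :=
  (IntermediateField.finrank_eq_fixingSubgroup_index (AlgebraicClosure F) K).symm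

theorem open_fix {K : IntermediateField F (AlgebraicClosure F)} (hK : FiniteDimensional F K) :
    IsOpen (K.fixingSubgroup : Set Gal(AlgebraicClosure F/F)) :=
  (InfiniteGalois.isOpen_iff_finite K).2 hK

theorem fi {K : IntermediateField F (AlgebraicClosure F)} (hK : FiniteDimensional F K) :
    K.fixingSubgroup.FiniteIndex := by
  haveI : Finite (Gal(AlgebraicClosure F/F) ⧸ K.fixingSubgroup) :=
    Subgroup.quotient_finite_of_isOpen _ (open_fix hK)
  exact Subgroup.finiteIndex_of_finite_quotient

/-- the number of embeddings fixed by `σ` -/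
noncomputable def wt (K : IntermediateField F (AlgebraicClosure F)) (σ : Gal(AlgebraicClosure F/F)) : ℝ :=
  (Nat.card (fixedBy (Gal(AlgebraicClosure F/F) ⧸ K.fixingSubgroup) σ) : ℝ)

theorem ne_top {K : IntermediateField F (AlgebraicClosure F)} (h : K ≠ ⊥) : K.fixingSubgroup ≠ ⊤ := by
  intro h1
  apply h
  have h2 := InfiniteGalois.fixedField_fixingSubgroup K
  rw [h1] at h2
  rw [← h2]
  exact InfiniteGalois.fixedField_bot

theorem rank_gt' {K : IntermediateField F (AlgebraicClosure F)} (hK : FiniteDimensional F K) (h : K ≠ ⊥) :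
    (0 : ℝ) < (rank K.fixingSubgroup : ℝ) - 1 := by
  haveI := fi hK
  have := rank_gt K.fixingSubgroup (ne_top h)
  have h2 : (1 : ℝ) < (rank K.fixingSubgroup : ℝ) := by exact_mod_cast this
  linarith

section chosen

variable (φ : HeightOneSpectrum (𝓞 F) → Gal(AlgebraicClosure F/F))
  (hφ : ∀ v, Pool.Agent.W401.Cheb.IsFrob v (φ v))

include hφ in
theorem bessel_fields {ι : Type} [DecidableEq ι] (K : ι → IntermediateField F (AlgebraicClosure F))
    (hfin : ∀ i, FiniteDimensional F (K i)) (hne : ∀ i, K i ≠ ⊥)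
    (hld : ∀ i j, i ≠ j → Module.finrank F ((K i ⊔ K j : IntermediateField F (AlgebraicClosure F))) =
      Module.finrank F (K i) * Module.finrank F (K j)) (J : Finset ι) (ε : ℝ) (hε : 0 < ε) :
    ∀ᶠ N in atTop, ∀ f : HeightOneSpectrum (𝓞 F) → ℝ, (∀ v, |f v| ≤ 1) →
      ∑ i ∈ J, (wav (bx F N) (fun v => wt (K i) (φ v)) f - wav (bx F N) (fun _ => 1) f) ^ 2 /
        ((rank (K i).fixingSubgroup : ℝ) - 1) ≤ 1 + ε := by
  have hnorm : ∀ U : Subgroup Gal(AlgebraicClosure F/F), IsOpen (U : Set Gal(AlgebraicClosure F/F)) →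
      ∃ M : Subgroup Gal(AlgebraicClosure F/F), M.Normal ∧ IsOpen (M : Set Gal(AlgebraicClosure F/F)) ∧ M ≤ U := by
    intro U hU
    obtain ⟨M, hM⟩ := ProfiniteGrp.exist_openNormalSubgroup_sub_open_nhds_of_one hU U.one_mem
    exact ⟨M.toSubgroup, M.isNormal', M.isOpen', hM⟩
  have hfq : ∀ i, Finite (Gal(AlgebraicClosure F/F) ⧸ (K i).fixingSubgroup) := fun i =>
    Subgroup.quotient_finite_of_isOpen _ (open_fix (hfin i))
  -- pairs
  have hpair : ∀ i j, Tendsto (fun N : ℕ => mn (bx F N) (Nat.primeCounting N)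
      (fun v => wt (K i) (φ v) * wt (K j) (φ v))) atTop
      (𝓝 (Nat.card (orbitRel.Quotient Gal(AlgebraicClosure F/F)
        ((Gal(AlgebraicClosure F/F) ⧸ (K i).fixingSubgroup) × (Gal(AlgebraicClosure F/F) ⧸ (K j).fixingSubgroup))) : ℝ)) := by
    intro i j
    haveI := hfq i
    haveI := hfq j
    obtain ⟨M, hM, hMo, hMU⟩ := hnorm ((K i).fixingSubgroup ⊓ (K j).fixingSubgroup)
      ((open_fix (hfin i)).inter (open_fix (hfin j)))
    have h := burnside φ hφ (X := (Gal(AlgebraicClosure F/F) ⧸ (K i).fixingSubgroup) ×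
      (Gal(AlgebraicClosure F/F) ⧸ (K j).fixingSubgroup)) M hMo (fun n hn p =>
        Prod.ext (triv_quot (hMU.trans inf_le_left) n hn p.1) (triv_quot (hMU.trans inf_le_right) n hn p.2))
    refine h.congr fun N => ?_
    congr 1
    funext v
    rw [card_fixed_prod]
    push_cast
    rfl
  refine core (bx F) (fun N => (Nat.primeCounting N : ℝ)) ?_ (fun i v => wt (K i) (φ v))
    (fun i v => Nat.cast_nonneg _) (fun i => (rank (K i).fixingSubgroup : ℝ) - 1)
    (fun i => rank_gt' (hfin i) (hne i)) lim_univ ?_ ?_ ?_ J ε hε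
  · have : Tendsto (fun N : ℕ => (Nat.primeCounting N : ℝ)) atTop atTop :=
      tendsto_natCast_atTop_atTop.comp Nat.tendsto_primeCounting
    exact this.eventually_gt_atTop 0
  · intro i
    haveI := hfq i
    obtain ⟨M, hM, hMo, hMU⟩ := hnorm (K i).fixingSubgroup (open_fix (hfin i))
    have h := burnside φ hφ (X := Gal(AlgebraicClosure F/F) ⧸ (K i).fixingSubgroup) M hMo
      (fun n hn p => triv_quot hMU n hn p)
    rw [card_orbits_one inferInstance, Nat.cast_one] at h
    exact h
  · intro i j hij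
    have h := hpair i j
    haveI := fi (hfin i)
    haveI := fi (hfin j)
    have hidx : ((K i).fixingSubgroup ⊓ (K j).fixingSubgroup).index =
        (K i).fixingSubgroup.index * (K j).fixingSubgroup.index := by
      rw [← IntermediateField.fixingSubgroup_sup, index_eq, index_eq, index_eq]
      exact hld i j hij
    haveI : Nonempty ((Gal(AlgebraicClosure F/F) ⧸ (K i).fixingSubgroup) ×
      (Gal(AlgebraicClosure F/F) ⧸ (K j).fixingSubgroup)) := ⟨(((1 : Gal(AlgebraicClosure F/F)) : Gal(AlgebraicClosure F/F) ⧸ (K i).fixingSubgroup),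
        ((1 : Gal(AlgebraicClosure F/F)) : Gal(AlgebraicClosure F/F) ⧸ (K j).fixingSubgroup))⟩
    rw [card_orbits_one (pretrans_prod _ _ hidx), Nat.cast_one] at h
    exact h
  · intro i
    have h := hpair i i
    rw [sub_add_cancel]
    exact h

include hφ in
theorem descent (K : ℕ → IntermediateField F (AlgebraicClosure F))
    (hfin : ∀ i, FiniteDimensional F (K i)) (hne : ∀ i, K i ≠ ⊥)
    (hld : ∀ i j, i ≠ j → Module.finrank F ((K i ⊔ K j : IntermediateField F (AlgebraicClosure F))) =
      Module.finrank F (K i) * Module.finrank F (K j))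
    (hs : ¬ Summable fun i => 1 / ((rank (K i).fixingSubgroup : ℝ) - 1))
    (f : HeightOneSpectrum (𝓞 F) → ℝ) (C : ℝ) (hf : ∀ v, |f v| ≤ C) (c : ℝ)
    (h : ∀ η : ℝ, 0 < η → ∀ᶠ i in atTop, ∀ᶠ N in atTop,
      |wav (bx F N) (fun v => wt (K i) (φ v)) f - c| ≤ η) :
    Tendsto (fun N => wav (bx F N) (fun _ => 1) f) atTop (𝓝 c) := by
  set C' : ℝ := |C| + 1 with hC'
  have hC0 : 0 < C' := by positivity
  have hsc : ∀ N r, wav (bx F N) r f = C' * wav (bx F N) r (fun v => f v / C') := by
    intro N r
    unfold wav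
    have : ∑ v ∈ bx F N, r v * (f v / C') = (∑ v ∈ bx F N, r v * f v) / C' := by
      rw [Finset.sum_div]
      refine Finset.sum_congr rfl fun v _ => ?_
      ring
    rw [this]
    field_simp
  have hf1 : ∀ v, |f v / C'| ≤ 1 := by
    intro v
    rw [abs_div, abs_of_pos hC0]
    apply div_le_one_of_le₀ _ hC0.le
    have := hf v
    have := le_abs_self C
    linarith
  have key : Tendsto (fun N => wav (bx F N) (fun _ => 1) (fun v => f v / C')) atTop (𝓝 (c / C')) := by
    rw [Metric.tendsto_nhds]
    intro η hη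
    obtain ⟨i₀, hi₀⟩ := Filter.eventually_atTop.1 (h (C' * (η / 2)) (by positivity))
    have := approx (bx F) (fun i v => wt (K i) (φ v)) (fun i => (rank (K i).fixingSubgroup : ℝ) - 1)
      (fun i => rank_gt' (hfin i) (hne i))
      (fun J ε hε => bessel_fields φ hφ K hfin hne hld J ε hε) hs (fun v => f v / C') hf1 (c / C') η hη i₀
      (fun i hi => by
        filter_upwards [hi₀ i hi] with N hN
        rw [hsc] at hN
        have e : C' * wav (bx F N) (fun v => wt (K i) (φ v)) (fun v => f v / C') - c =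
            C' * (wav (bx F N) (fun v => wt (K i) (φ v)) (fun v => f v / C') - c / C') := by
          field_simp
        rw [e, abs_mul, abs_of_pos hC0] at hN
        exact le_of_mul_le_mul_left hN hC0)
    simpa [Real.dist_eq] using this
  have := key.const_mul C'
  rw [show C' * (c / C') = c by field_simp] at this
  refine this.congr fun N => ?_
  rw [hsc]

end chosen

/-- bounded ranks -/
theorem not_summable_of_bounded (K : ℕ → IntermediateField F (AlgebraicClosure F))
    (hfin : ∀ i, FiniteDimensional F (K i)) (hne : ∀ i, K i ≠ ⊥) (D : ℕ)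
    (h : ∃ᶠ i in atTop, rank (K i).fixingSubgroup ≤ D) :
    ¬ Summable fun i => 1 / ((rank (K i).fixingSubgroup : ℝ) - 1) := by
  intro hs
  have h1 := hs.tendsto_atTop_zero
  have hD : (0 : ℝ) < 1 / (D + 1) := by positivity
  have h2 := h1.eventually_lt_const hD
  obtain ⟨i, hi, hlt⟩ := (h.and_eventually h2).exists
  have h3 := rank_gt' (hfin i) (hne i)
  have h4 : (rank (K i).fixingSubgroup : ℝ) ≤ D := by exact_mod_cast hi
  have h5 : (1 : ℝ) / (D + 1) ≤ 1 / ((rank (K i).fixingSubgroup : ℝ) - 1) :=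
    one_div_le_one_div_of_le h3 (by linarith)
  linarith

end Pool.Agent.V1142.EQ
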